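import Pool.Agent.W770.PC.SphStms

/-!
# Project PC, part srem1: norm equivalence for `a(u) + b(u) √(c - u²)`
-/

set_option autoImplicit false

open MeasureTheory Set Filter Topology

namespace Pool.Agent.W770.PC

namespace SR1

open Polynomial in
/-- the polynomial `(1 + τ²)^(D+1) (a + b √(c - u²))` after the rational substitution -/
noncomputable def q (D : ℕ) (a b : Polynomial ℝ) (κ : ℝ) : Polynomial ℝ :=
  ∑ i ∈ Finset.range (D + 1),
    (C (a.coeff i * (2 * κ) ^ i) * X ^ i * (1 + X ^ 2) ^ (D + 1 - i) +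
      C (b.coeff i * (2 * κ) ^ i * κ) * X ^ i * (1 - X ^ 2) * (1 + X ^ 2) ^ (D - i))

/-- the rational parametrisation -/
noncomputable def U (κ τ : ℝ) : ℝ := 2 * κ * τ / (1 + τ ^ 2)

open Polynomial in
theorem q_natDegree (D : ℕ) (a b : Polynomial ℝ) (κ : ℝ) : (q D a b κ).natDegree ≤ 2 * D + 2 := by
  unfold q
  refine natDegree_sum_le_of_forall_le _ _ fun i hi => ?_
  have hi' : i ≤ D := by simpa [Nat.lt_succ_iff] using hi
  obtain ⟨j, rfl⟩ := Nat.exists_eq_add_of_le hi'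
  have e1 : i + j + 1 - i = j + 1 := by omega
  have e2 : i + j - i = j := by omega
  rw [e1, e2]
  refine (natDegree_add_le _ _).trans (max_le ?_ ?_)
  · have : (C (a.coeff i * (2 * κ) ^ i) * X ^ i * (1 + X ^ 2) ^ (j + 1) : ℝ[X]).natDegree ≤
        (0 + i) + (j + 1) * 2 := by compute_degree; omega
    omega
  · have : (C (b.coeff i * (2 * κ) ^ i * κ) * X ^ i * (1 - X ^ 2) * (1 + X ^ 2) ^ j : ℝ[X]).natDegree ≤
        ((0 + i) + 2) + j * 2 := by compute_degree; omega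
    omega

open Polynomial in
theorem q_eval (D : ℕ) (a b : Polynomial ℝ) (ha : a.natDegree ≤ D) (hb : b.natDegree ≤ D)
    (κ τ : ℝ) : (q D a b κ).eval τ =
      (1 + τ ^ 2) ^ (D + 1) * (a.eval (U κ τ) + b.eval (U κ τ) * (κ * (1 - τ ^ 2) / (1 + τ ^ 2))) := by
  have hs : (1 + τ ^ 2 : ℝ) ≠ 0 := by positivity
  rw [eval_eq_sum_range' (Nat.lt_succ_of_le ha) (U κ τ), eval_eq_sum_range' (Nat.lt_succ_of_le hb) (U κ τ),
    Finset.sum_mul, ← Finset.sum_add_distrib, Finset.mul_sum]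
  unfold q U
  rw [eval_finsetSum]
  refine Finset.sum_congr rfl fun i hi => ?_
  have hi' : i ≤ D := by simpa [Nat.lt_succ_iff] using hi
  obtain ⟨j, rfl⟩ := Nat.exists_eq_add_of_le hi'
  have e1 : i + j + 1 - i = j + 1 := by omega
  have e2 : i + j - i = j := by omega
  rw [e1, e2]
  simp only [eval_add, eval_mul, eval_C, eval_pow, eval_X, eval_one, eval_sub]
  rw [div_pow, mul_pow, show (1 + τ ^ 2) ^ (i + j + 1) = (1 + τ ^ 2) ^ i * (1 + τ ^ 2) ^ j * (1 + τ ^ 2) by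
    rw [pow_succ, pow_add]]
  field_simp
  ring

theorem U_sub (κ τ σ : ℝ) : U κ τ - U κ σ =
    (τ - σ) * (2 * κ * (1 - τ * σ) / ((1 + τ ^ 2) * (1 + σ ^ 2))) := by
  unfold U
  have h1 : (1 + τ ^ 2 : ℝ) ≠ 0 := by positivity
  have h2 : (1 + σ ^ 2 : ℝ) ≠ 0 := by positivity
  field_simp
  ring

theorem fac_bounds {κ τ σ : ℝ} (h1 : 43 / 50 ≤ κ) (h2 : κ ≤ 1) (hτ : |τ| ≤ 1 / 4) (hσ : |σ| ≤ 1 / 4) :
    7 / 5 ≤ 2 * κ * (1 - τ * σ) / ((1 + τ ^ 2) * (1 + σ ^ 2)) ∧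
      2 * κ * (1 - τ * σ) / ((1 + τ ^ 2) * (1 + σ ^ 2)) ≤ 2 := by
  have hpos : 0 < (1 + τ ^ 2) * (1 + σ ^ 2) := by positivity
  have ht2 : τ ^ 2 ≤ 1 / 16 := by
    have := abs_nonneg τ
    rw [← sq_abs]; nlinarith
  have hs2 : σ ^ 2 ≤ 1 / 16 := by
    have := abs_nonneg σ
    rw [← sq_abs]; nlinarith
  have hts : |τ * σ| ≤ 1 / 16 := by
    rw [abs_mul]
    have := abs_nonneg τ
    have := abs_nonneg σ
    nlinarith
  have hts' := abs_le.mp hts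
  constructor
  · rw [le_div_iff₀ hpos]
    have h3 : (1 + τ ^ 2) * (1 + σ ^ 2) ≤ 17 / 16 * (17 / 16) := by
      apply mul_le_mul <;> nlinarith [sq_nonneg τ, sq_nonneg σ]
    nlinarith
  · rw [div_le_iff₀ hpos]
    have h4 : 1 - τ * σ ≤ (1 + τ ^ 2) * (1 + σ ^ 2) := by
      nlinarith [sq_nonneg (τ + σ), sq_nonneg τ, sq_nonneg σ, mul_nonneg (sq_nonneg τ) (sq_nonneg σ)]
    nlinarith

theorem U_deriv (κ τ : ℝ) :
    HasDerivAt (U κ) (2 * κ * (1 - τ * τ) / ((1 + τ ^ 2) * (1 + τ ^ 2))) τ := by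
  have hs : (1 + τ ^ 2 : ℝ) ≠ 0 := by positivity
  have h1 : HasDerivAt (fun τ : ℝ => 2 * κ * τ) (2 * κ) τ := by
    simpa using (hasDerivAt_id τ).const_mul (2 * κ)
  have h2 : HasDerivAt (fun τ : ℝ => 1 + τ ^ 2) (2 * τ) τ := by
    simpa using (hasDerivAt_pow 2 τ).const_add 1
  have h3 := h1.div h2 hs
  refine h3.congr_deriv ?_
  field_simp
  ring

theorem rt_U (a b : Polynomial ℝ) {κ τ : ℝ} (hκ : 0 ≤ κ) (hτ : |τ| ≤ 1) :
    rt a b (κ ^ 2) (U κ τ) =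
      a.eval (U κ τ) + b.eval (U κ τ) * (κ * (1 - τ ^ 2) / (1 + τ ^ 2)) := by
  unfold rt
  congr 2
  have hs : (0 : ℝ) < 1 + τ ^ 2 := by positivity
  have ht : τ ^ 2 ≤ 1 := by rw [← sq_abs]; have := abs_nonneg τ; nlinarith
  have hnn : 0 ≤ κ * (1 - τ ^ 2) / (1 + τ ^ 2) := by
    apply div_nonneg _ hs.le
    exact mul_nonneg hκ (by linarith)
  rw [← Real.sqrt_sq hnn]
  congr 1
  unfold U
  field_simp
  ring

theorem sq_le16 {τ : ℝ} (hτ : |τ| ≤ 1 / 4) : τ ^ 2 ≤ 1 / 16 := by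
  have := abs_nonneg τ
  rw [← sq_abs]; nlinarith

theorem sq_le38 {u : ℝ} (hu : |u| ≤ 3 / 8) : u ^ 2 ≤ 9 / 64 := by
  rw [← sq_abs]; have := abs_nonneg u; nlinarith

theorem two_div_le {r : ℝ} (hr : 0 < r) (hr38 : r ≤ 3 / 8) : 2 / r ≤ 1 / r ^ 2 := by
  rw [div_le_div_iff₀ hr (by positivity)]
  nlinarith

theorem kappa {κ : ℝ} (h0 : 0 ≤ κ) (h1 : 3 / 4 ≤ κ ^ 2) (h2 : κ ^ 2 ≤ 1) :
    43 / 50 ≤ κ ∧ κ ≤ 1 := by
  constructor <;> nlinarith

/-- the inverse of `U` -/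
noncomputable def T (κ u : ℝ) : ℝ := u / (κ + Real.sqrt (κ ^ 2 - u ^ 2))

theorem T_spec {κ u : ℝ} (h1 : 43 / 50 ≤ κ) (h1' : 3 / 4 ≤ κ ^ 2) (hu : |u| ≤ 3 / 8) :
    |T κ u| ≤ 1 / 4 ∧ U κ (T κ u) = u := by
  have hu2 : u ^ 2 ≤ 9 / 64 := by rw [← sq_abs]; have := abs_nonneg u; nlinarith
  have hs0 : 0 ≤ κ ^ 2 - u ^ 2 := by linarith
  obtain ⟨s, hs⟩ : ∃ s, s = Real.sqrt (κ ^ 2 - u ^ 2) := ⟨_, rfl⟩
  have hsq : s ^ 2 = κ ^ 2 - u ^ 2 := by rw [hs]; exact Real.sq_sqrt hs0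
  have hs1 : 3 / 4 ≤ s := by
    rw [hs]; apply Real.le_sqrt_of_sq_le; nlinarith
  unfold T
  rw [← hs]
  constructor
  · rw [abs_div, abs_of_pos (show 0 < κ + s by linarith), div_le_iff₀ (by linarith)]
    linarith
  · unfold U
    have h2 : κ + s ≠ 0 := by linarith
    have h3 : (κ + s) ^ 2 + u ^ 2 = 2 * κ * (κ + s) := by nlinarith
    have h4 : 1 + (u / (κ + s)) ^ 2 = 2 * κ / (κ + s) := by
      field_simp
      linarith
    rw [h4]
    have h5 : κ ≠ 0 := by linarith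
    field_simp

end SR1

open SR1

theorem srem1_thm (h1 : S_poly1) : S_srem1 := by
  intro D
  obtain ⟨C1, hC1, hp⟩ := h1 (2 * D + 2)
  refine ⟨2 ^ (D + 1) * C1 * (D + 5), by positivity, ?_⟩
  intro a b ha hb c hc1 hc2 w r hr hwr u hu huw
  obtain ⟨κ, hκc, hκ0⟩ : ∃ κ : ℝ, κ ^ 2 = c ∧ 0 ≤ κ :=
    ⟨Real.sqrt c, Real.sq_sqrt (by linarith), Real.sqrt_nonneg _⟩
  subst hκc
  obtain ⟨hκ1, hκ2⟩ := kappa hκ0 hc1 hc2
  -- the three points
  have hw1 : |w - r| ≤ 3 / 8 := (abs_sub _ _).trans (by rw [abs_of_pos hr]; exact hwr)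
  have hw2 : |w + r| ≤ 3 / 8 := (abs_add_le _ _).trans (by rw [abs_of_pos hr]; exact hwr)
  have hw0 : |w| ≤ 3 / 8 := by linarith
  obtain ⟨τ1, hτ1, hτ1b, hU1⟩ : ∃ τ, τ = T κ (w - r) ∧ |τ| ≤ 1 / 4 ∧ U κ τ = w - r :=
    ⟨_, rfl, T_spec hκ1 hc1 hw1⟩
  obtain ⟨τ2, hτ2, hτ2b, hU2⟩ : ∃ τ, τ = T κ (w + r) ∧ |τ| ≤ 1 / 4 ∧ U κ τ = w + r :=
    ⟨_, rfl, T_spec hκ1 hc1 hw2⟩
  obtain ⟨τu, hτu, hτub, hUu⟩ : ∃ τ, τ = T κ u ∧ |τ| ≤ 1 / 4 ∧ U κ τ = u :=
    ⟨_, rfl, T_spec hκ1 hc1 hu⟩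
  obtain ⟨F12, hF12, hF12a, hF12b⟩ : ∃ F, U κ τ2 - U κ τ1 = (τ2 - τ1) * F ∧ 7 / 5 ≤ F ∧ F ≤ 2 :=
    ⟨_, U_sub κ τ2 τ1, fac_bounds hκ1 hκ2 hτ2b hτ1b⟩
  obtain ⟨Fu1, hFu1, hFu1a, hFu1b⟩ : ∃ F, U κ τu - U κ τ1 = (τu - τ1) * F ∧ 7 / 5 ≤ F ∧ F ≤ 2 :=
    ⟨_, U_sub κ τu τ1, fac_bounds hκ1 hκ2 hτub hτ1b⟩
  obtain ⟨Fu2, hFu2, hFu2a, hFu2b⟩ : ∃ F, U κ τu - U κ τ2 = (τu - τ2) * F ∧ 7 / 5 ≤ F ∧ F ≤ 2 :=
    ⟨_, U_sub κ τu τ2, fac_bounds hκ1 hκ2 hτub hτ2b⟩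
  rw [hU1, hU2] at hF12
  rw [hUu, hU1] at hFu1
  rw [hUu, hU2] at hFu2
  have hlt : τ1 < τ2 := by
    by_contra hcon
    push Not at hcon
    have : (τ2 - τ1) * F12 ≤ 0 := mul_nonpos_of_nonpos_of_nonneg (by linarith) (by linarith)
    linarith
  obtain ⟨ρ, hρ⟩ : ∃ ρ, ρ = (τ2 - τ1) / 2 := ⟨_, rfl⟩
  obtain ⟨m, hm⟩ : ∃ m, m = (τ1 + τ2) / 2 := ⟨_, rfl⟩
  have hρ0 : 0 < ρ := by rw [hρ]; linarith
  have hρr : r ≤ 2 * ρ := by
    have : (τ2 - τ1) * F12 ≤ (τ2 - τ1) * 2 := mul_le_mul_of_nonneg_left hF12b (by linarith)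
    rw [hρ]; linarith
  have hm1 : m - ρ = τ1 := by rw [hm, hρ]; ring
  have hm2 : m + ρ = τ2 := by rw [hm, hρ]; ring
  -- distances
  have hdist : |τu - m| ≤ 16 * ρ := by
    have e : τu - m = ((τu - τ1) + (τu - τ2)) / 2 := by rw [hm]; ring
    have h3 : |τu - τ1| * (7 / 5) ≤ 9 * r := by
      calc |τu - τ1| * (7 / 5) ≤ |τu - τ1| * Fu1 := mul_le_mul_of_nonneg_left hFu1a (abs_nonneg _)
        _ = |(τu - τ1) * Fu1| := by rw [abs_mul, abs_of_pos (show 0 < Fu1 by linarith)]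
        _ = |(u - w) + r| := by rw [← hFu1]; congr 1; ring
        _ ≤ |u - w| + |r| := abs_add_le _ _
        _ ≤ 9 * r := by rw [abs_of_pos hr]; linarith
    have h4 : |τu - τ2| * (7 / 5) ≤ 9 * r := by
      calc |τu - τ2| * (7 / 5) ≤ |τu - τ2| * Fu2 := mul_le_mul_of_nonneg_left hFu2a (abs_nonneg _)
        _ = |(τu - τ2) * Fu2| := by rw [abs_mul, abs_of_pos (show 0 < Fu2 by linarith)]
        _ = |(u - w) - r| := by rw [← hFu2]; congr 1; ring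
        _ ≤ |u - w| + |r| := abs_sub _ _
        _ ≤ 9 * r := by rw [abs_of_pos hr]; linarith
    rw [e, abs_div, abs_of_pos (show (0 : ℝ) < 2 by norm_num)]
    have h5 := abs_add_le (τu - τ1) (τu - τ2)
    linarith
  obtain ⟨hq1, hq2⟩ := hp (q D a b κ) (q_natDegree D a b κ) m ρ hρ0 τu hdist
  rw [hm1, hm2] at hq1 hq2
  -- the integral
  obtain ⟨I, hI⟩ : ∃ I, I = ∫ v in Icc (w - r) (w + r), |rt a b (κ ^ 2) v| := ⟨_, rfl⟩
  obtain ⟨J, hJ⟩ : ∃ J, J = ∫ v in Icc τ1 τ2, |(q D a b κ).eval v| := ⟨_, rfl⟩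
  rw [← hJ] at hq1 hq2
  rw [← hI]
  have hcont : Continuous (fun v => |rt a b (κ ^ 2) v|) := by
    unfold rt
    fun_prop
  have hev : ∀ τ : ℝ, |τ| ≤ 1 → (q D a b κ).eval τ = (1 + τ ^ 2) ^ (D + 1) * rt a b (κ ^ 2) (U κ τ) := by
    intro τ hτ
    rw [q_eval D a b ha hb, rt_U a b hκ0 hτ]
  have hJI : J ≤ 2 ^ (D + 1) * I := by
    rw [hJ, hI, integral_Icc_eq_integral_Ioc, integral_Icc_eq_integral_Ioc,
      ← intervalIntegral.integral_of_le hlt.le, ← intervalIntegral.integral_of_le (by linarith)]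
    have hsub : ∫ τ in τ1..τ2, ((fun v => |rt a b (κ ^ 2) v|) ∘ U κ) τ *
        (2 * κ * (1 - τ * τ) / ((1 + τ ^ 2) * (1 + τ ^ 2))) =
        ∫ v in (U κ τ1)..(U κ τ2), |rt a b (κ ^ 2) v| := by
      refine intervalIntegral.integral_comp_mul_deriv (fun x _ => U_deriv κ x) ?_ hcont
      refine ContinuousOn.div (by fun_prop) (by fun_prop) fun x _ => ?_
      positivity
    rw [hU1, hU2] at hsub
    rw [← hsub, ← intervalIntegral.integral_const_mul]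
    refine intervalIntegral.integral_mono_on hlt.le ?_ ?_ ?_
    · exact Continuous.intervalIntegrable (by fun_prop) _ _
    · refine ContinuousOn.intervalIntegrable ?_
      refine ContinuousOn.mul continuousOn_const (ContinuousOn.mul ?_ ?_)
      · refine hcont.comp_continuousOn ?_
        exact fun x _ => (U_deriv κ x).continuousAt.continuousWithinAt
      · refine ContinuousOn.div (by fun_prop) (by fun_prop) fun x _ => ?_
        positivity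
    · intro τ hτ
      have hτb : |τ| ≤ 1 / 4 := by
        rw [abs_le] at hτ1b hτ2b ⊢
        exact ⟨by linarith [hτ.1], by linarith [hτ.2]⟩
      have hfac := (fac_bounds hκ1 hκ2 hτb hτb).1
      have ht2 : τ ^ 2 ≤ 1 / 16 := sq_le16 hτb
      rw [hev τ (by linarith), abs_mul, abs_of_pos (show (0 : ℝ) < (1 + τ ^ 2) ^ (D + 1) by positivity)]
      have h6 : (1 + τ ^ 2) ^ (D + 1) ≤ 2 ^ (D + 1) := pow_le_pow_left₀ (by positivity) (by linarith) _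
      refine mul_le_mul h6 ?_ (abs_nonneg _) (by positivity)
      show |rt a b (κ ^ 2) (U κ τ)| ≤ |rt a b (κ ^ 2) (U κ τ)| * _
      exact le_mul_of_one_le_right (abs_nonneg _) (by linarith)
  have hI0 : 0 ≤ I := by rw [hI]; positivity
  have hJ0 : 0 ≤ J := by rw [hJ]; positivity
  have hρi : 1 / ρ ≤ 2 / r := by
    rw [div_le_div_iff₀ hρ0 hr]; linarith
  have hb1 : |(q D a b κ).eval τu| ≤ C1 * (2 / r) * (2 ^ (D + 1) * I) := by
    refine hq1.trans ?_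
    rw [div_eq_mul_one_div C1 ρ]
    gcongr
  have hb2 : |(q D a b κ).derivative.eval τu| ≤ C1 * (4 / r ^ 2) * (2 ^ (D + 1) * I) := by
    refine hq2.trans ?_
    rw [div_eq_mul_one_div C1 (ρ ^ 2)]
    have : 1 / ρ ^ 2 ≤ 4 / r ^ 2 := by
      have := pow_le_pow_left₀ (by positivity) hρi 2
      rw [div_pow, div_pow] at this
      norm_num at this ⊢
      exact this
    gcongr
  have hτu1 : |τu| ≤ 1 := by linarith
  have hpw1 : (1 : ℝ) ≤ (1 + τu ^ 2) ^ (D + 1) := one_le_pow₀ (le_add_of_nonneg_right (sq_nonneg τu))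
  constructor
  · have h7 : |rt a b (κ ^ 2) u| ≤ |(q D a b κ).eval τu| := by
      rw [hev τu hτu1, hUu, abs_mul, abs_of_pos (show (0 : ℝ) < (1 + τu ^ 2) ^ (D + 1) by positivity)]
      exact le_mul_of_one_le_left (abs_nonneg _) hpw1
    refine (h7.trans hb1).trans ?_
    have h8 : 0 ≤ 2 ^ (D + 1) * C1 / r * I := by positivity
    calc C1 * (2 / r) * (2 ^ (D + 1) * I) = 2 * (2 ^ (D + 1) * C1 / r * I) := by ring
      _ ≤ ((D : ℝ) + 5) * (2 ^ (D + 1) * C1 / r * I) := by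
        have : (0 : ℝ) ≤ D := Nat.cast_nonneg D
        exact mul_le_mul_of_nonneg_right (by linarith) h8
      _ = _ := by ring
  · -- the derivative
    have hu2 : u ^ 2 ≤ 9 / 64 := sq_le38 hu
    have hdiff : DifferentiableAt ℝ (rt a b (κ ^ 2)) u := by
      unfold rt
      have : DifferentiableAt ℝ (fun u : ℝ => Real.sqrt (κ ^ 2 - u ^ 2)) u := by
        refine DifferentiableAt.sqrt (by fun_prop) ?_
        exact ne_of_gt (by linarith)
      exact (a.differentiable.differentiableAt).add ((b.differentiable.differentiableAt).mul this)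
    obtain ⟨F, hF, hFa⟩ : ∃ F, F = 2 * κ * (1 - τu * τu) / ((1 + τu ^ 2) * (1 + τu ^ 2)) ∧ 7 / 5 ≤ F :=
      ⟨_, rfl, (fac_bounds hκ1 hκ2 hτub hτub).1⟩
    have hd1 : HasDerivAt (fun τ => rt a b (κ ^ 2) (U κ τ)) (deriv (rt a b (κ ^ 2)) u * F) τu := by
      have h8 : HasDerivAt (rt a b (κ ^ 2)) (deriv (rt a b (κ ^ 2)) u) (U κ τu) := by
        rw [hUu]; exact hdiff.hasDerivAt
      rw [hF]
      exact h8.comp τu (U_deriv κ τu)
    have hd2 : HasDerivAt (fun τ : ℝ => (1 + τ ^ 2) ^ (D + 1) * rt a b (κ ^ 2) (U κ τ))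
        (((D : ℝ) + 1) * (1 + τu ^ 2) ^ D * (2 * τu) * rt a b (κ ^ 2) u +
          (1 + τu ^ 2) ^ (D + 1) * (deriv (rt a b (κ ^ 2)) u * F)) τu := by
      have h9 : HasDerivAt (fun τ : ℝ => (1 + τ ^ 2) ^ (D + 1))
          (((D : ℝ) + 1) * (1 + τu ^ 2) ^ D * (2 * τu)) τu := by
        have h10 : HasDerivAt (fun τ : ℝ => 1 + τ ^ 2) (2 * τu) τu := by
          simpa using (hasDerivAt_pow 2 τu).const_add 1
        have h11 := h10.fun_pow (D + 1)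
        simpa using h11
      have h12 := h9.mul hd1
      rw [hUu] at h12
      exact h12
    have hd3 : HasDerivAt (fun τ : ℝ => (1 + τ ^ 2) ^ (D + 1) * rt a b (κ ^ 2) (U κ τ))
        ((q D a b κ).derivative.eval τu) τu := by
      refine ((q D a b κ).hasDerivAt τu).congr_of_eventuallyEq ?_
      have : ∀ᶠ τ in 𝓝 τu, |τ| < 1 := by
        have hc : Continuous (fun τ : ℝ => |τ|) := continuous_abs
        exact (hc.tendsto τu).eventually (gt_mem_nhds (by linarith))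
      filter_upwards [this] with τ hτ
      exact (hev τ hτ.le).symm
    have heq := hd2.unique hd3
    obtain ⟨R, hR⟩ : ∃ R, R = deriv (rt a b (κ ^ 2)) u := ⟨_, rfl⟩
    rw [← hR] at heq ⊢
    obtain ⟨s, hs⟩ : ∃ s, s = 1 + τu ^ 2 := ⟨_, rfl⟩
    rw [← hs] at heq hpw1
    have hs1 : 1 ≤ s := by rw [hs]; exact le_add_of_nonneg_right (sq_nonneg τu)
    have hevu : (q D a b κ).eval τu = s ^ (D + 1) * rt a b (κ ^ 2) u := by
      rw [hev τu hτu1, hUu, hs]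
    have h13 : |s ^ (D + 1) * (R * F)| ≤ |(q D a b κ).derivative.eval τu| +
        ((D : ℝ) + 1) * |(q D a b κ).eval τu| := by
      have e : s ^ (D + 1) * (R * F) = (q D a b κ).derivative.eval τu -
          ((D : ℝ) + 1) * s ^ D * (2 * τu) * rt a b (κ ^ 2) u := by linarith
      rw [e]
      refine (abs_sub _ _).trans (add_le_add le_rfl ?_)
      rw [hevu, abs_mul, abs_mul, abs_mul, abs_mul, abs_mul, abs_of_nonneg (show (0 : ℝ) ≤ (D : ℝ) + 1 by positivity),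
        abs_of_nonneg (show (0 : ℝ) ≤ s ^ D by positivity), abs_of_nonneg (show (0 : ℝ) ≤ s ^ (D + 1) by positivity),
        abs_of_pos (show (0 : ℝ) < 2 by norm_num)]
      have h14 : s ^ D * (2 * |τu|) ≤ s ^ (D + 1) := by
        rw [pow_succ]
        refine mul_le_mul_of_nonneg_left ?_ (by positivity)
        have := sq_nonneg τu
        linarith
      calc ((D : ℝ) + 1) * s ^ D * (2 * |τu|) * |rt a b (κ ^ 2) u|
          = ((D : ℝ) + 1) * ((s ^ D * (2 * |τu|)) * |rt a b (κ ^ 2) u|) := by ring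
        _ ≤ ((D : ℝ) + 1) * (s ^ (D + 1) * |rt a b (κ ^ 2) u|) := by gcongr
    have h15 : |R| ≤ |s ^ (D + 1) * (R * F)| := by
      rw [abs_mul, abs_mul, abs_of_pos (show (0 : ℝ) < s ^ (D + 1) by positivity),
        abs_of_pos (show 0 < F by linarith)]
      calc |R| = 1 * (|R| * 1) := by ring
        _ ≤ s ^ (D + 1) * (|R| * F) := by
          refine mul_le_mul hpw1 ?_ (by positivity) (by positivity)
          exact mul_le_mul_of_nonneg_left (by linarith) (abs_nonneg _)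
    have hr38 : r ≤ 3 / 8 := by have := abs_nonneg w; linarith
    have h16 : 2 / r ≤ 1 / r ^ 2 := two_div_le hr hr38
    have h17 : |(q D a b κ).eval τu| ≤ C1 * (1 / r ^ 2) * (2 ^ (D + 1) * I) := by
      refine hb1.trans ?_
      gcongr
    calc |R| ≤ |(q D a b κ).derivative.eval τu| + ((D : ℝ) + 1) * |(q D a b κ).eval τu| := h15.trans h13
      _ ≤ C1 * (4 / r ^ 2) * (2 ^ (D + 1) * I) + ((D : ℝ) + 1) * (C1 * (1 / r ^ 2) * (2 ^ (D + 1) * I)) := by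
        gcongr
      _ = 2 ^ (D + 1) * C1 * (D + 5) / r ^ 2 * I := by ring

end Pool.Agent.W770.PC
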